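import Mathlib
import Pool.Agent.MP_44c6d5_nt.VertBound

namespace Pool.Agent.MP_44c6d5_nt

open MeasureTheory Real MvPolynomial Module Filter Topology

variable {k : ℕ}

/-- **[MV-1] A facet containing a given face.**

Proof: copy of `exists_facet` (Vertex.lean, line 208) with one extra condition. Call `y` admissible
if `y ∉ Lam F` and `(ini w F).support ⊆ (ini y F).support`; `w` is admissible. Choose `y`
admissible with `finrank ℝ (Lam (ini y F))` minimal (`Nat.find`). Suppose
`finrank ℝ (Lam F) + 2 ≤ finrank ℝ (Lam (ini y F))`. As in `exists_facet` put `V = Lam (ini y F)`;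
`V \ Lam F` is connected. `hstep`: for `v ∉ Lam F` and small `u ∈ V`:
`ini (v + u) F = ini y F ↔ ini v F = ini y F`. Direction `←` as there. Direction `→`: by `perturb`,
`ini u (ini v F) = ini y F`, so `(ini y F).support ⊆ (ini v F).support`; hence `v` is admissible and
the minimality applies to `v`; the rest is unchanged. -/
theorem exists_facet_face {F : Pol k} (hF : F ≠ 0) {w : Fin k → ℝ} (hw : w ∉ Lam F) :
    ∃ y, y ∉ Lam F ∧ (ini w F).support ⊆ (ini y F).support ∧
      finrank ℝ (Lam (ini y F)) = finrank ℝ (Lam F) + 1 := by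
  classical
  have hex : ∃ m : ℕ, ∃ y, y ∉ Lam F ∧ (ini w F).support ⊆ (ini y F).support ∧
      finrank ℝ (Lam (ini y F)) = m := ⟨_, w, hw, fun _ h => h, rfl⟩
  obtain ⟨y, hy, hys, hm⟩ := Nat.find_spec hex
  have hmin : ∀ v, v ∉ Lam F → (ini w F).support ⊆ (ini v F).support →
      finrank ℝ (Lam (ini y F)) ≤ finrank ℝ (Lam (ini v F)) := by
    intro v hv hvs
    rw [hm]
    exact Nat.find_min' hex ⟨v, hv, hvs, rfl⟩
  refine ⟨y, hy, hys, ?_⟩
  have hle := Lam_le_Lam_ini y F
  have hlt : finrank ℝ (Lam F) < finrank ℝ (Lam (ini y F)) := by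
    apply Submodule.finrank_lt_finrank_of_lt
    refine lt_of_le_of_ne hle ?_
    intro h
    apply hy
    rw [h]; exact mem_Lam_ini y F
  by_contra hcon
  have hcod : finrank ℝ (Lam F) + 2 ≤ finrank ℝ (Lam (ini y F)) := by omega
  set V := Lam (ini y F) with hV
  set E : Submodule ℝ V := (Lam F).comap V.subtype with hE
  have hEf : finrank ℝ E = finrank ℝ (Lam F) :=
    (Submodule.comapSubtypeEquivOfLe hle).finrank_eq
  have hcodim : 1 < Module.rank ℝ (V ⧸ E) := by
    have h1 := Submodule.finrank_quotient_add_finrank E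
    have h2 : 1 < finrank ℝ (V ⧸ E) := by omega
    rw [← Module.finrank_eq_rank]
    exact_mod_cast h2
  have hconn := (isConnected_compl_of_one_lt_codim hcodim).isPreconnected
  let f : V → Bool := fun w => decide (ini (w : Fin k → ℝ) F = ini y F)
  have hstep : ∀ v : Fin k → ℝ, v ∉ Lam F → ∀ᶠ u in 𝓝 (0 : Fin k → ℝ), u ∈ V →
      (ini (v + u) F = ini y F ↔ ini v F = ini y F) := by
    intro v hv
    filter_upwards [perturb v hF] with u h1 hu
    rw [h1.1]
    constructor
    · intro h
      have h2 : Lam (ini v F) ≤ V := by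
        rw [hV, ← h]; exact Lam_le_Lam_ini u _
      have hsub : (ini y F).support ⊆ (ini v F).support := by
        intro j hj
        rw [← h] at hj
        exact (mem_support_ini.mp hj).1
      have h3 : Lam (ini v F) = V :=
        Submodule.eq_of_le_of_finrank_le h2 (hmin v hv (hys.trans hsub))
      have h4 : ini u (ini v F) = ini v F :=
        (ini_eq_self_iff (ini_ne_zero v hF)).mpr (by rw [h3]; exact hu)
      rw [← h4]; exact h
    · intro h
      rw [h]
      exact (ini_eq_self_iff (ini_ne_zero y hF)).mpr hu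
  have hf : ContinuousOn f ((E : Set V)ᶜ) := by
    clear hw hys hmin hm hex
    intro w hw
    have hw' : (w : Fin k → ℝ) ∉ Lam F := hw
    apply ContinuousAt.continuousWithinAt
    have hev := hstep w hw'
    have hc : Tendsto (fun w' : V => (w' : Fin k → ℝ) - (w : Fin k → ℝ)) (𝓝 w) (𝓝 0) := by
      have h1 : Continuous fun w' : V => (w' : Fin k → ℝ) - (w : Fin k → ℝ) :=
        continuous_subtype_val.sub continuous_const
      have h2 := h1.tendsto w
      rw [sub_self] at h2
      exact h2
    have h3 : ∀ᶠ w' : V in 𝓝 w, f w' = f w := by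
      filter_upwards [hc.eventually hev] with w' h4
      have h5 := h4 (V.sub_mem w'.2 w.2)
      rw [add_sub_cancel] at h5
      simp only [f, decide_eq_decide]
      exact h5
    have h6 : f =ᶠ[𝓝 w] fun _ => f w := h3
    exact (continuousAt_const.congr h6.symm)
  have hyV : y ∈ V := mem_Lam_ini y F
  have hyV' : -y ∈ V := V.neg_mem hyV
  have hyE : (⟨y, hyV⟩ : V) ∈ ((E : Set V)ᶜ) := hy
  have hyE' : (⟨-y, hyV'⟩ : V) ∈ ((E : Set V)ᶜ) := fun h => hy (by
    have : -y ∈ Lam F := h
    simpa using (Lam F).neg_mem this)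
  have h7 := hconn.constant hf hyE hyE'
  simp only [f, decide_eq_decide] at h7
  have h8 : ini (-y) F = ini y F := h7.mp trivial
  obtain ⟨j, hj, hj'⟩ := exists_ord y hF
  have h9 : j ∈ (ini (-y) F).support := by
    rw [h8]; exact mem_support_ini.mpr ⟨hj, hj'⟩
  have h10 := (mem_support_ini.mp h9).2
  apply hy
  rw [← ord_add_ord_neg_eq_iff hF, ← h10, wt_neg, hj']
  ring

/-- the `w`-face of a face containing it. Proof: `ini_eq_of` with `c = ord w F`, using
`mem_support_ini` (the support of `ini y F` is contained in that of `F`, the coefficients agree). -/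
theorem ini_ini_of_subset {F : Pol k} (hF : F ≠ 0) {w y : Fin k → ℝ}
    (h : (ini w F).support ⊆ (ini y F).support) : ini w (ini y F) = ini w F := by
  refine (ini_eq_of (y := w) (P := ini y F) (I := ini w F) (ini_ne_zero w hF) (c := ord w F)
    ?_ ?_ ?_).2
  · intro j hj
    rw [coeff_ini, coeff_ini, if_pos hj]
    by_cases hjF : j ∈ F.support
    · rw [if_pos (mem_support_ini.mp (h (mem_support_ini.mpr ⟨hjF, hj⟩))).2]
    · have h0 : coeff j F = 0 := by simpa using hjF
      rw [h0, ite_self]
  · intro j hj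
    rw [coeff_ini, coeff_eq_zero_of_lt hj, ite_self]
  · intro j hj
    exact (mem_support_ini.mp (MvPolynomial.mem_support_iff.mpr hj)).2

end Pool.Agent.MP_44c6d5_nt
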