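import Mathlib
import Pool.Agent.MP_44c6d5_nt.VertBound

namespace Pool.Agent.MP_44c6d5_nt

open MeasureTheory Real MvPolynomial Module Filter Topology

variable {k : ℕ}



/-- **[MV-2a] Equality in Jensen's inequality on almost every line.**

Proof. Put `P' = ini (rl l) P`, `a x = ∫ t, log ‖ev P (line l x t)‖`, `b x = log ‖ev P' x‖`. By
`integral_line`, `mm P = ∫ a`, `mm P' = ∫ b`; `b ≤ a` a.e. (see the proof of `mm_ini_le`, Recip.lean)
and both are integrable (`integrable_integral_line`, `integrable_log_ev`), so `∫ (a - b) ≤ 0` gives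
`a = b` a.e. (`integral_eq_zero_iff_of_nonneg_ae`). For such `x` with moreover `ev P' x ≠ 0`
(`ae_ev_ne_zero`): by `norm_ev_line` and `integral_log_norm_e`, `a x = (up l P x).logMahlerMeasure`,
so `(up l P x).mahlerMeasure = exp (a x) = exp (log ‖ev P' x‖) = ‖ev P' x‖`
(`Polynomial.logMahlerMeasure_eq_log_MahlerMeasure`, and `up l P x ≠ 0` as its coefficient `0` is
`ev P' x`, `coeff_zero_up`). -/
theorem ae_mahlerMeasure_up (l : Fin k → ℤ) {P : Pol k} (hP : P ≠ 0)
    (h : mm P ≤ mm (ini (rl l) P)) :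
    ∀ᵐ x : Tor k, (up l P x).mahlerMeasure = ‖ev (ini (rl l) P) x‖ := by
  have hP'0 : ini (rl l) P ≠ 0 := ini_ne_zero (rl l) hP
  have ha := integrable_integral_line l (integrable_log_ev hP)
  have hb := integrable_log_ev hP'0
  have hab : ∀ᵐ x : Tor k, log ‖ev (ini (rl l) P) x‖ ≤ ∫ t, log ‖ev P (line l x t)‖ := by
    filter_upwards [ae_ev_ne_zero hP'0] with x hx
    rw [← coeff_zero_up l hP x] at hx ⊢
    have h3 := log_coeff_zero_le _ hx
    simp only [norm_ev_line]
    exact h3
  have hint : ∫ x : Tor k, ((∫ t, log ‖ev P (line l x t)‖) - log ‖ev (ini (rl l) P) x‖) ≤ 0 := by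
    rw [integral_sub ha hb, ← integral_line l (integrable_log_ev hP)]
    unfold mm at h
    linarith
  have hnn : 0 ≤ᵐ[volume] fun x : Tor k =>
      (∫ t, log ‖ev P (line l x t)‖) - log ‖ev (ini (rl l) P) x‖ := by
    filter_upwards [hab] with x hx
    exact sub_nonneg.2 hx
  have hz := (integral_eq_zero_iff_of_nonneg_ae hnn (ha.sub hb)).1
    (le_antisymm hint (integral_nonneg_of_ae hnn))
  filter_upwards [hz, ae_ev_ne_zero hP'0] with x hx hx0
  have h1 : ∫ t, log ‖ev P (line l x t)‖ = log ‖ev (ini (rl l) P) x‖ := sub_eq_zero.1 hx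
  simp only [norm_ev_line] at h1
  rw [integral_log_norm_e, Polynomial.logMahlerMeasure_eq_log_MahlerMeasure] at h1
  have h2 : up l P x ≠ 0 := by
    intro h3
    apply hx0
    rw [← coeff_zero_up l hP x, h3, Polynomial.coeff_zero]
  exact Real.log_injOn_pos (Polynomial.mahlerMeasure_pos_of_ne_zero h2) (norm_pos_iff.2 hx0) h1

/-- **[MV-2b] Domination by a face of the same measure.**

Proof. Choose an integral `l` with `ini (rl l) P = ini y P` (`exists_int_ini y hP hP`). Let `D` be a
natural number with `(up l P x).natDegree ≤ D` for all `x` (for instance the sum over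
`j ∈ P.support` of `(wtZ l j - ordZ l P).toNat`). For a.e. `x` (MV-2a)
`‖ev P x‖ = ‖ev P (line l x 0)‖ = ‖(up l P x).eval 1‖ ≤ ∑ i ∈ range (natDegree + 1), ‖coeff i‖
 ≤ ∑ i, (natDegree.choose i) * (up l P x).mahlerMeasure = 2 ^ natDegree * ‖ev (ini y P) x‖
 ≤ 2 ^ D * ‖ev (ini y P) x‖` (`Polynomial.norm_coeff_le_choose_mul_mahlerMeasure`,
`Nat.sum_range_choose`). Both sides are continuous in `x` (`continuous_ev`) and the measure of the
torus is positive on non empty open sets (Haar measure), so the inequality holds for all `x`. -/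
theorem exists_dominate {P : Pol k} (hP : P ≠ 0) (y : Fin k → ℝ) (h : mm P ≤ mm (ini y P)) :
    ∃ C : ℝ, 0 ≤ C ∧ ∀ x : Tor k, ‖ev P x‖ ≤ C * ‖ev (ini y P) x‖ := by
  obtain ⟨l, hl, _⟩ := exists_int_ini y hP hP
  set D := ∑ j ∈ P.support, (wtZ l j - ordZ l P).toNat with hD
  have hdeg : ∀ x, (up l P x).natDegree ≤ D := by
    intro x
    unfold up
    refine Polynomial.natDegree_sum_le_of_forall_le _ _ fun j hj => ?_
    refine (Polynomial.natDegree_C_mul_X_pow_le _ _).trans ?_
    exact Finset.single_le_sum (f := fun j => (wtZ l j - ordZ l P).toNat)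
      (fun _ _ => Nat.zero_le _) hj
  refine ⟨2 ^ D, by positivity, ?_⟩
  have hae : ∀ᵐ x : Tor k, ‖ev P x‖ ≤ 2 ^ D * ‖ev (ini y P) x‖ := by
    filter_upwards [ae_mahlerMeasure_up l hP (by rw [hl]; exact h)] with x hx
    have hl0 : line l x 0 = x := by
      funext i
      simp [line]
    have h1 : ‖ev P x‖ = ‖(up l P x).eval 1‖ := by
      have h2 := norm_ev_line l P x 0
      rwa [hl0, e_zero] at h2
    rw [h1, Polynomial.eval_eq_sum_range]
    calc ‖∑ i ∈ Finset.range ((up l P x).natDegree + 1), (up l P x).coeff i * 1 ^ i‖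
        ≤ ∑ i ∈ Finset.range ((up l P x).natDegree + 1), ‖(up l P x).coeff i * 1 ^ i‖ :=
          norm_sum_le _ _
      _ ≤ ∑ i ∈ Finset.range ((up l P x).natDegree + 1),
          ((up l P x).natDegree.choose i : ℝ) * ‖ev (ini y P) x‖ := by
          refine Finset.sum_le_sum fun i _ => ?_
          rw [one_pow, mul_one, ← hl, ← hx]
          exact Polynomial.norm_coeff_le_choose_mul_mahlerMeasure i (up l P x)
      _ = 2 ^ (up l P x).natDegree * ‖ev (ini y P) x‖ := by
          rw [← Finset.sum_mul]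
          congr 1
          exact_mod_cast Nat.sum_range_choose (up l P x).natDegree
      _ ≤ 2 ^ D * ‖ev (ini y P) x‖ := by
          refine mul_le_mul_of_nonneg_right ?_ (norm_nonneg _)
          exact pow_le_pow_right₀ (by norm_num) (hdeg x)
  have hopen : IsOpen {x : Tor k | 2 ^ D * ‖ev (ini y P) x‖ < ‖ev P x‖} :=
    isOpen_lt (continuous_const.mul (continuous_ev _).norm) (continuous_ev _).norm
  have hzero : volume {x : Tor k | 2 ^ D * ‖ev (ini y P) x‖ < ‖ev P x‖} = 0 := by
    rw [ae_iff] at hae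
    simpa only [not_le] using hae
  have hempty := (hopen.measure_eq_zero_iff (μ := (volume : Measure (Tor k)))).1 hzero
  intro x
  by_contra hx
  have hx' : x ∈ {x : Tor k | 2 ^ D * ‖ev (ini y P) x‖ < ‖ev P x‖} := not_le.1 hx
  rw [hempty] at hx'
  exact hx'

end Pool.Agent.MP_44c6d5_nt
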