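import Mathlib
import Pool.Agent.MP_44c6d5_nt.Uni

namespace Pool.Agent.MP_44c6d5_nt

open MeasureTheory Real

theorem mv3_e_surj {z : ℂ} (hz : ‖z‖ = 1) : ∃ t : UnitAddCircle, e t = z := by
  refine ⟨((Complex.arg z / (2 * π) : ℝ) : UnitAddCircle), ?_⟩
  rw [e_coe, circleMap]
  have h1 : 2 * π * (Complex.arg z / (2 * π)) = Complex.arg z := by
    have := Real.pi_pos.ne'
    field_simp
  rw [h1]
  have h2 := Complex.norm_mul_exp_arg_mul_I z
  rw [hz] at h2
  simpa using h2

theorem mv3_e_inj {s t : UnitAddCircle} (h : e s = e t) : s = t := by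
  have h1 : AddCircle.toCircle s = AddCircle.toCircle t := Subtype.ext h
  exact AddCircle.injective_toCircle one_ne_zero h1

theorem mv3_nontrivial : Nontrivial UnitAddCircle := by
  obtain ⟨s, hs⟩ := mv3_e_surj (z := 1) (by simp)
  obtain ⟨t, ht⟩ := mv3_e_surj (z := -1) (by simp)
  refine ⟨s, t, fun h => ?_⟩
  rw [h, ht] at hs
  norm_num at hs

theorem mv3_aux (n : ℕ) : ∀ {p f : Polynomial ℂ}, p.natDegree = n → p ≠ 0 →
    (∀ r, p.IsRoot r → ‖r‖ = 1) → ∀ {C : ℝ},
    (∀ t : UnitAddCircle, ‖f.eval (e t)‖ ≤ C * ‖p.eval (e t)‖) → p ∣ f := by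
  induction n with
  | zero =>
    intro p f hn hp _ C _
    rw [Polynomial.eq_C_of_natDegree_eq_zero hn] at hp ⊢
    have h0 : p.coeff 0 ≠ 0 := by
      intro h0
      rw [h0, Polynomial.C_0] at hp
      exact hp rfl
    exact (Polynomial.isUnit_C.2 (isUnit_iff_ne_zero.2 h0)).dvd
  | succ n ih =>
    intro p f hn hp hr C h
    have hdeg : p.degree ≠ 0 := by
      intro h0
      have := Polynomial.natDegree_eq_of_degree_eq_some (n := 0) (by rw [h0]; rfl)
      omega
    obtain ⟨r, hroot⟩ := IsAlgClosed.exists_root p hdeg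
    obtain ⟨t₀, ht₀⟩ := mv3_e_surj (hr r hroot)
    have hf : f.IsRoot r := by
      have h1 := h t₀
      rw [ht₀] at h1
      have h2 : p.eval r = 0 := hroot
      rw [h2, norm_zero, mul_zero] at h1
      exact norm_le_zero_iff.1 h1
    obtain ⟨p', hp'⟩ := Polynomial.dvd_iff_isRoot.2 hroot
    obtain ⟨f', hf'⟩ := Polynomial.dvd_iff_isRoot.2 hf
    have hp'0 : p' ≠ 0 := by
      rintro rfl
      rw [mul_zero] at hp'
      exact hp hp'
    have hn' : p'.natDegree = n := by
      have h1 := Polynomial.natDegree_mul (Polynomial.X_sub_C_ne_zero r) hp'0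
      rw [← hp', Polynomial.natDegree_X_sub_C, hn] at h1
      omega
    have hr' : ∀ s, p'.IsRoot s → ‖s‖ = 1 := by
      intro s hs
      apply hr
      rw [hp']
      exact Polynomial.root_mul_left_of_isRoot _ hs
    have hne : ∀ t : UnitAddCircle, t ≠ t₀ → ‖f'.eval (e t)‖ ≤ C * ‖p'.eval (e t)‖ := by
      intro t ht
      have h1 : 0 < ‖e t - r‖ := by
        rw [norm_pos_iff, sub_ne_zero, ← ht₀]
        exact fun h2 => ht (mv3_e_inj h2)
      have h2 := h t
      rw [hp', hf'] at h2
      simp only [Polynomial.eval_mul, Polynomial.eval_sub, Polynomial.eval_X, Polynomial.eval_C,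
        norm_mul] at h2
      have h3 : ‖e t - r‖ * ‖f'.eval (e t)‖ ≤ ‖e t - r‖ * (C * ‖p'.eval (e t)‖) := by
        calc ‖e t - r‖ * ‖f'.eval (e t)‖ ≤ C * (‖e t - r‖ * ‖p'.eval (e t)‖) := h2
          _ = ‖e t - r‖ * (C * ‖p'.eval (e t)‖) := by ring
      exact le_of_mul_le_mul_left h3 h1
    have hall : ∀ t : UnitAddCircle, ‖f'.eval (e t)‖ ≤ C * ‖p'.eval (e t)‖ := by
      have hc1 : Continuous fun t : UnitAddCircle => ‖f'.eval (e t)‖ :=
        (f'.continuous.comp continuous_e).norm
      have hc2 : Continuous fun t : UnitAddCircle => C * ‖p'.eval (e t)‖ :=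
        continuous_const.mul (p'.continuous.comp continuous_e).norm
      have hclosed : IsClosed {t : UnitAddCircle | ‖f'.eval (e t)‖ ≤ C * ‖p'.eval (e t)‖} :=
        isClosed_le hc1 hc2
      have : Nontrivial UnitAddCircle := mv3_nontrivial
      have hdense : Dense ({t₀}ᶜ : Set UnitAddCircle) := dense_compl_singleton t₀
      intro t
      exact (hclosed.closure_subset_iff.2 (fun s hs => hne s hs)) (hdense t)
    rw [hp', hf']
    exact mul_dvd_mul_left _ (ih hn' hp'0 hr' hall)

/-- **[MV-3]** A polynomial whose roots all lie on the unit circle divides every polynomial which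
it dominates on the unit circle.

Proof by induction on `p.natDegree` (generalizing `f`). If `natDegree p = 0`, `p` is a unit. Otherwise
`p` has a root `r` (`Complex.exists_root`), `‖r‖ = 1`, so `r = e t₀` for some `t₀` (surjectivity of
`e` onto the unit circle: `e_coe`, or `AddCircle.homeomorphCircle'`), and the hypothesis gives
`f.eval r = 0`. Write `p = (X - C r) * p'`, `f = (X - C r) * f'`
(`Polynomial.mul_divByMonic_eq_iff_isRoot` or `dvd_iff_isRoot`). For `t ≠ t₀` one can cancel
`‖e t - r‖ > 0` (`e_injective`) and gets `‖f'.eval (e t)‖ ≤ C * ‖p'.eval (e t)‖`; at `t₀` it follows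
by continuity (the complement of `{t₀}` is dense; or: the set of `t` where the inequality holds is
closed and contains the dense set `{t₀}ᶜ`). The roots of `p'` are roots of `p`. -/
theorem dvd_of_dominated {p f : Polynomial ℂ} (hp : p ≠ 0) (hr : ∀ r, p.IsRoot r → ‖r‖ = 1)
    {C : ℝ} (h : ∀ t : UnitAddCircle, ‖f.eval (e t)‖ ≤ C * ‖p.eval (e t)‖) : p ∣ f :=
  mv3_aux p.natDegree rfl hp hr h

end Pool.Agent.MP_44c6d5_nt
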