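import Mathlib
import Pool.Agent.MP_44c6d5_nt.VertBound

namespace Pool.Agent.MP_44c6d5_nt

open MeasureTheory Real MvPolynomial Module Filter Topology

variable {k : ℕ}

/-- the part of `P` of `l`-weight `ordZ l P + i` -/
noncomputable def lev (l : Fin k → ℤ) (P : Pol k) (i : ℕ) : Pol k :=
  ∑ j ∈ P.support with wtZ l j = ordZ l P + i, monomial j (coeff j P)

theorem mv4_ev_monomial (x : Tor k) (j : Fin k →₀ ℕ) (c : ℤ) :
    ev (monomial j c) x = (c : ℂ) * mon x j := by
  unfold ev mon
  rw [aeval_monomial, Finsupp.prod_fintype _ _ (fun i => pow_zero _)]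
  simp

theorem mv4_ev_sum {ι : Type*} (s : Finset ι) (f : ι → Pol k) (x : Tor k) :
    ev (∑ i ∈ s, f i) x = ∑ i ∈ s, ev (f i) x := by
  unfold ev
  exact map_sum _ _ _

theorem mv4_ev_pow (P : Pol k) (n : ℕ) (x : Tor k) : ev (P ^ n) x = ev P x ^ n := by
  unfold ev
  exact map_pow _ _ _

/-- the numerators of the coefficients of the quotient -/
noncomputable def mv4_A (l : Fin k → ℤ) (g F : Pol k) : ℕ → Pol k
  | n => (lev l g 0) ^ n * lev l F n -
      ∑ i : Fin n, (lev l g 0) ^ (i : ℕ) * lev l g ((i : ℕ) + 1) * mv4_A l g F (n - ((i : ℕ) + 1))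
  decreasing_by
    have := i.2
    omega

/-- **[MV-4a]** the coefficients of `up`. Proof: as `coeff_zero_up` (Torus.lean). -/
theorem coeff_up (l : Fin k → ℤ) (P : Pol k) (x : Tor k) (i : ℕ) :
    (up l P x).coeff i = ev (lev l P i) x := by
  classical
  rw [up, Polynomial.finsetSum_coeff, lev, mv4_ev_sum, Finset.sum_filter]
  refine Finset.sum_congr rfl fun j hj => ?_
  rw [Polynomial.coeff_C_mul, Polynomial.coeff_X_pow]
  have h := ordZ_le (l := l) hj
  have h3 : wtZ l j = ordZ l P + i ↔ i = (wtZ l j - ordZ l P).toNat := by omega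
  by_cases h4 : wtZ l j = ordZ l P + i
  · rw [if_pos h4, if_pos (h3.mp h4), mul_one, mv4_ev_monomial]
  · rw [if_neg h4, if_neg (fun h5 => h4 (h3.mpr h5)), mul_zero]

theorem mv4_eval_one (l : Fin k → ℤ) (P : Pol k) (x : Tor k) : ev P x = (up l P x).eval 1 := by
  have hl0 : line l x 0 = x := by
    funext i
    simp [line]
  have h2 := ev_line l P x 0
  rwa [hl0, e_zero, one_zpow, one_mul] at h2

theorem mv4_A_spec (l : Fin k → ℤ) (g F : Pol k) (x : Tor k) (q : Polynomial ℂ)
    (hq : up l F x = up l g x * q) (n : ℕ) :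
    ev (mv4_A l g F n) x = (ev (lev l g 0) x) ^ (n + 1) * q.coeff n := by
  induction n using Nat.strong_induction_on with
  | _ n ih =>
    have h1 := Polynomial.coeff_mul (up l g x) q n
    rw [← hq] at h1
    rw [Finset.Nat.sum_antidiagonal_eq_sum_range_succ
      (fun i j => (up l g x).coeff i * q.coeff j), Finset.sum_range_succ'] at h1
    rw [mv4_A, ev_sub, ev_mul, mv4_ev_pow, mv4_ev_sum, ← coeff_up l F x n, h1]
    have h2 : ∀ i : Fin n, ev ((lev l g 0) ^ (i : ℕ) * lev l g ((i : ℕ) + 1) *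
        mv4_A l g F (n - ((i : ℕ) + 1))) x =
        (ev (lev l g 0) x) ^ n * ((up l g x).coeff ((i : ℕ) + 1) *
          q.coeff (n - ((i : ℕ) + 1))) := by
      intro i
      have hi := i.2
      rw [ev_mul, ev_mul, mv4_ev_pow, ih (n - ((i : ℕ) + 1)) (by omega),
        ← coeff_up l g x ((i : ℕ) + 1)]
      have h3 : (ev (lev l g 0) x) ^ n = (ev (lev l g 0) x) ^ (i : ℕ) *
          (ev (lev l g 0) x) ^ (n - ((i : ℕ) + 1) + 1) := by
        rw [← pow_add]
        congr 1
        omega
      rw [h3]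
      ring
    rw [Finset.sum_congr rfl fun i _ => h2 i, ← Finset.mul_sum,
      Fin.sum_univ_eq_sum_range (fun i => (up l g x).coeff (i + 1) * q.coeff (n - (i + 1))) n,
      coeff_up l g x 0, Nat.sub_zero]
    ring

/-- **[MV-4b]** Fibrewise divisibility implies divisibility up to a power of the face polynomial.

Proof. Let `u = lev l g 0`; `ev u x = (up l g x).coeff 0 = ev (ini (rl l) g) x` (`coeff_up`,
`coeff_zero_up`). Define `A n : Pol k` by (strong) recursion
`A n = u ^ n * lev l F n - ∑ i ∈ range n, u ^ i * lev l g (i + 1) * A (n - (i + 1))`.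
For `x` in the full measure set where `up l g x ∣ up l F x` (and `ev u x ≠ 0`, `ae_ev_ne_zero`
applied to `ini (rl l) g`), write `up l F x = up l g x * q`; comparing coefficients
(`Polynomial.coeff_mul`), by strong induction `ev (A n) x = (ev u x) ^ (n + 1) * q.coeff n`.
Let `K` be such that `natDegree (up l F x) ≤ K` for all `x` (for instance the sum of the
`(wtZ l j - ordZ l F).toNat`). As `up l g x ≠ 0`, `natDegree q ≤ K` when `q ≠ 0`. Put
`Q = ∑ n ∈ range (K + 1), A n * u ^ (K - n)`. Then for a.e. `x`,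
`ev (g * Q) x = (up l g x).eval 1 * (ev u x) ^ (K + 1) * q.eval 1 = ev (u ^ (K + 1) * F) x`
where `ev g x = (up l g x).eval 1` by `ev_line` at `t = 0` (`line l x 0 = x`, `e 0 = 1`).
So the polynomial `g * Q - (ini (rl l) g) ^ (K + 1) * F` vanishes a.e. on the torus, hence is `0` by
`ae_ev_ne_zero`. -/
theorem exists_quot (l : Fin k → ℤ) {g F : Pol k} (hg : g ≠ 0) (hF : F ≠ 0)
    (h : ∀ᵐ x : Tor k, up l g x ∣ up l F x) :
    ∃ (K : ℕ) (Q : Pol k), g * Q = (ini (rl l) g) ^ (K + 1) * F := by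
  set K := ∑ j ∈ F.support, (wtZ l j - ordZ l F).toNat with hK
  have hdeg : ∀ x, (up l F x).natDegree ≤ K := by
    intro x
    unfold up
    refine Polynomial.natDegree_sum_le_of_forall_le _ _ fun j hj => ?_
    refine (Polynomial.natDegree_C_mul_X_pow_le _ _).trans ?_
    exact Finset.single_le_sum (f := fun j => (wtZ l j - ordZ l F).toNat)
      (fun _ _ => Nat.zero_le _) hj
  refine ⟨K, ∑ n ∈ Finset.range (K + 1), mv4_A l g F n * (lev l g 0) ^ (K - n), ?_⟩
  set Q : Pol k := ∑ n ∈ Finset.range (K + 1), mv4_A l g F n * (lev l g 0) ^ (K - n) with hQ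
  have hu : ∀ x, ev (ini (rl l) g) x = ev (lev l g 0) x := by
    intro x
    rw [← coeff_zero_up l hg x, coeff_up]
  have hae : ∀ᵐ x : Tor k, ev (g * Q - (ini (rl l) g) ^ (K + 1) * F) x = 0 := by
    filter_upwards [h, ae_ev_ne_zero hg] with x hx hgx
    obtain ⟨q, hq⟩ := hx
    have hgu : up l g x ≠ 0 := by
      intro h0
      apply hgx
      rw [mv4_eval_one l, h0, Polynomial.eval_zero]
    have hqd : q.natDegree < K + 1 := by
      by_cases hq0 : q = 0
      · rw [hq0, Polynomial.natDegree_zero]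
        omega
      · have h1 := hdeg x
        rw [hq, Polynomial.natDegree_mul hgu hq0] at h1
        omega
    have hQx : ev Q x = (ev (lev l g 0) x) ^ (K + 1) * q.eval 1 := by
      rw [hQ, mv4_ev_sum, Polynomial.eval_eq_sum_range' hqd, Finset.mul_sum]
      refine Finset.sum_congr rfl fun n hn => ?_
      rw [Finset.mem_range] at hn
      rw [ev_mul, mv4_A_spec l g F x q hq, mv4_ev_pow, one_pow, mul_one]
      have h3 : (ev (lev l g 0) x) ^ (K + 1) = (ev (lev l g 0) x) ^ (n + 1) *
          (ev (lev l g 0) x) ^ (K - n) := by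
        rw [← pow_add]
        congr 1
        omega
      rw [h3]
      ring
    rw [ev_sub, ev_mul, ev_mul, mv4_ev_pow, hu, hQx, mv4_eval_one l g x, mv4_eval_one l F x, hq,
      Polynomial.eval_mul]
    ring
  by_contra hne
  have hne' : g * Q - (ini (rl l) g) ^ (K + 1) * F ≠ 0 := fun h0 => hne (sub_eq_zero.1 h0)
  obtain ⟨x, h1, h2⟩ := (hae.and (ae_ev_ne_zero hne')).exists
  exact h2 h1

end Pool.Agent.MP_44c6d5_nt
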