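import Mathlib
import Pool.Agent.MP_44c6d5_nt.Uni

namespace Pool.Agent.MP_44c6d5_nt

open MeasureTheory Real

theorem mv5_conj_eval (p : Polynomial ℂ) (x : ℂ) :
    (p.map (starRingEnd ℂ)).eval x = (starRingEnd ℂ) (p.eval ((starRingEnd ℂ) x)) := by
  have h := Polynomial.eval_map_apply (f := starRingEnd ℂ) (p := p) (x := (starRingEnd ℂ) x)
  rw [Complex.conj_conj] at h
  exact h

theorem mv5_eval_rev (p : Polynomial ℂ) {s : ℂ} (hs : s ≠ 0) :
    ((p.map (starRingEnd ℂ)).reverse).eval s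
      = s ^ p.natDegree * (starRingEnd ℂ) (p.eval ((starRingEnd ℂ) s)⁻¹) := by
  have hi : s⁻¹ ≠ 0 := inv_ne_zero hs
  let _ : Invertible (s⁻¹) := invertibleOfNonzero hi
  have h := Polynomial.eval₂_reverse_mul_pow (RingHom.id ℂ) (s⁻¹) (p.map (starRingEnd ℂ))
  have h1 : ⅟(s⁻¹) = s := by
    rw [invOf_eq_inv, inv_inv]
  rw [h1, Polynomial.natDegree_map_eq_of_injective (starRingEnd ℂ).injective,
    Polynomial.eval₂_id, Polynomial.eval₂_id, mv5_conj_eval p s⁻¹, map_inv₀] at h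
  rw [← h, inv_pow]
  field_simp

theorem mv5_circle_infinite : Set.Infinite (Set.range e) := by
  have h : IsPreconnected (Set.range e) := by
    rw [← Set.image_univ]
    exact isPreconnected_univ.image e continuous_e.continuousOn
  apply h.infinite_of_nontrivial
  refine ⟨e 0, ⟨0, rfl⟩, e ((1 / 2 : ℝ) : UnitAddCircle), ⟨_, rfl⟩, ?_⟩
  rw [e_zero, e_coe]
  have : circleMap 0 1 (2 * π * (1 / 2)) = -1 := by
    rw [circleMap]
    have : ((2 * π * (1 / 2) : ℝ) : ℂ) = (π : ℂ) := by push_cast; ring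
    rw [this, Complex.exp_pi_mul_I]
    simp
  rw [this]
  norm_num

theorem mv5_norm_prod (s : Multiset ℂ) : ‖s.prod‖ = (s.map (fun a => ‖a‖)).prod := by
  induction s using Multiset.induction_on with
  | empty => simp
  | cons a s ih => rw [Multiset.prod_cons, norm_mul, ih, Multiset.map_cons, Multiset.prod_cons]

theorem mv5_roots_ge {p : Polynomial ℂ} (h0 : p.coeff 0 ≠ 0)
    (hM : p.mahlerMeasure = ‖p.coeff 0‖) {r : ℂ} (hr : p.IsRoot r) : 1 ≤ ‖r‖ := by
  have hp : p ≠ 0 := by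
    rintro rfl
    simp at h0
  have hc := (IsAlgClosed.splits p).coeff_zero_eq_leadingCoeff_mul_prod_roots
  have hl : 0 < ‖p.leadingCoeff‖ := norm_pos_iff.mpr (Polynomial.leadingCoeff_ne_zero.mpr hp)
  have h1 : ‖p.coeff 0‖ = ‖p.leadingCoeff‖ * (p.roots.map (fun a => ‖a‖)).prod := by
    rw [hc, norm_mul, norm_mul, norm_pow, norm_neg, norm_one, one_pow, one_mul, mv5_norm_prod]
  have hpos : 0 < (p.roots.map (fun a => ‖a‖)).prod := by
    have h2 : 0 < ‖p.coeff 0‖ := norm_pos_iff.mpr h0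
    rw [h1] at h2
    exact (mul_pos_iff_of_pos_left hl).mp h2
  rw [Polynomial.mahlerMeasure_eq_leadingCoeff_mul_prod_roots, h1] at hM
  have h2 : (p.roots.map (fun a ↦ max 1 ‖a‖)).prod = (p.roots.map (fun a => ‖a‖)).prod :=
    mul_left_cancel₀ hl.ne' hM
  have hmem : r ∈ p.roots := (Polynomial.mem_roots hp).mpr hr
  obtain ⟨s, hs⟩ := Multiset.exists_cons_of_mem hmem
  rw [hs, Multiset.map_cons, Multiset.map_cons, Multiset.prod_cons, Multiset.prod_cons] at h2
  by_contra hlt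
  have hlt' : ‖r‖ < 1 := not_le.mp hlt
  have h3 : (s.map (fun a => ‖a‖)).prod ≤ (s.map (fun a ↦ max 1 ‖a‖)).prod :=
    Multiset.prod_map_le_prod_map₀ _ _ (fun _ _ => norm_nonneg _) (fun _ _ => le_max_right _ _)
  rw [hs, Multiset.map_cons, Multiset.prod_cons] at hpos
  rw [max_eq_left hlt'.le, one_mul] at h2
  have h4 : 0 < (s.map (fun a => ‖a‖)).prod := by
    by_contra hn
    have : (s.map (fun a => ‖a‖)).prod ≤ 0 := not_lt.mp hn
    have h5 := mul_nonpos_of_nonneg_of_nonpos (norm_nonneg r) this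
    linarith
  nlinarith

theorem mv5_zpow {s : ℂ} (hs : s ≠ 0) (N : ℤ) : s ^ N * s ^ (-N).toNat = s ^ N.toNat := by
  rw [← zpow_natCast, ← zpow_natCast, ← zpow_add₀ hs]
  congr 1
  omega

theorem mv5_ident {p : Polynomial ℂ} {κ : ℂ} (N : ℤ)
    (hrec : ∀ t : UnitAddCircle,
      p.eval (e t) = κ * e t ^ N * (starRingEnd ℂ) (p.eval (e t))) :
    p * Polynomial.X ^ (p.natDegree + (-N).toNat)
      = Polynomial.C κ * (p.map (starRingEnd ℂ)).reverse * Polynomial.X ^ N.toNat := by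
  apply Polynomial.eq_of_infinite_eval_eq
  apply mv5_circle_infinite.mono
  rintro s ⟨t, rfl⟩
  have hs := e_ne_zero t
  have hn : e t * (starRingEnd ℂ) (e t) = 1 := by
    rw [Complex.mul_conj, Complex.normSq_eq_norm_sq, norm_e]
    norm_num
  have hc : ((starRingEnd ℂ) (e t))⁻¹ = e t := by
    have h1 : (starRingEnd ℂ) (e t) ≠ 0 := by
      intro h
      rw [h, mul_zero] at hn
      exact zero_ne_one hn
    field_simp
    rw [mul_comm]
    exact hn.symm
  simp only [Set.mem_ofPred_eq, Polynomial.eval_mul, Polynomial.eval_pow, Polynomial.eval_X,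
    Polynomial.eval_C]
  rw [mv5_eval_rev p hs, hc]
  calc p.eval (e t) * e t ^ (p.natDegree + (-N).toNat)
      = κ * e t ^ N * (starRingEnd ℂ) (p.eval (e t)) * e t ^ (p.natDegree + (-N).toNat) := by
        rw [← hrec t]
    _ = κ * (e t ^ p.natDegree * (starRingEnd ℂ) (p.eval (e t)))
          * (e t ^ N * e t ^ (-N).toNat) := by
        rw [pow_add]
        ring
    _ = _ := by rw [mv5_zpow hs]

/-- **[MV-5]** A self-inversive polynomial with equality in Jensen's formula has all its roots on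
the unit circle.

Proof. Let `n = p.natDegree`, `q = (p.map (starRingEnd ℂ)).reverse`. For `‖s‖ = 1` one has
`q.eval s = s ^ n * conj (p.eval s)` (`Polynomial.eval₂_reverse_mul_pow`, `s⁻¹ = conj s`). So on the
circle `p(s) = κ s ^ N s ^ (-n) q(s)`; multiplying by a suitable power of `s` one gets, with natural
numbers `a, b` (`b - a = N - n`), `p(s) s ^ a = κ q(s) s ^ b` for all `s` on the circle, hence
(infinitely many points, `Polynomial.eq_of_infinite_eval_eq`) `p * X ^ a = C κ * q * X ^ b`.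

First part: `1 ≤ ‖r‖` for every root `r`. `log ‖p.coeff 0‖ = log ‖lead‖ + ∑ log ‖r‖` over the roots
(product formula for the constant coefficient), while
`log (mahlerMeasure p) = log ‖lead‖ + ∑ log⁺ ‖r‖` (`Polynomial.logMahlerMeasure_eq_log_leadingCoeff_add_sum_log_roots`
or the corresponding lemma for `mahlerMeasure`: `‖lead‖ * ∏ max 1 ‖r‖`). As the two are equal and
`max 1 ‖r‖ ≥ ‖r‖ > 0` (roots are nonzero as `p.coeff 0 ≠ 0`), all `max 1 ‖r‖ = ‖r‖`.

Second part: if `r` is a root of `p`, evaluate the identity at `r`: `κ * q(r) * r ^ b = 0`, so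
`q(r) = 0`, i.e. (`r ≠ 0`) `1 / conj r` is a root of `p` (`Polynomial.eval₂_reverse_mul_pow` again).
By the first part `1 ≤ ‖1 / conj r‖`, so `‖r‖ ≤ 1`. -/
theorem roots_unit {p : Polynomial ℂ} (h0 : p.coeff 0 ≠ 0) (hM : p.mahlerMeasure = ‖p.coeff 0‖)
    {κ : ℂ} (hκ : κ ≠ 0) (N : ℤ)
    (hrec : ∀ t : UnitAddCircle,
      p.eval (e t) = κ * e t ^ N * (starRingEnd ℂ) (p.eval (e t))) :
    ∀ r, p.IsRoot r → ‖r‖ = 1 := by
  intro r hr
  have h1 := mv5_roots_ge h0 hM hr
  have hr0 : r ≠ 0 := by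
    rintro rfl
    rw [norm_zero] at h1
    linarith
  have hid := mv5_ident N hrec
  have h2 := congrArg (Polynomial.eval r) hid
  simp only [Polynomial.eval_mul, Polynomial.eval_pow, Polynomial.eval_X,
    Polynomial.eval_C] at h2
  have hr' : p.eval r = 0 := hr
  rw [hr', zero_mul, mv5_eval_rev p hr0] at h2
  have h3 : (starRingEnd ℂ) (p.eval ((starRingEnd ℂ) r)⁻¹) = 0 := by
    have h4 := h2.symm
    rcases mul_eq_zero.mp h4 with h5 | h5
    · rcases mul_eq_zero.mp h5 with h6 | h6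
      · exact absurd h6 hκ
      · rcases mul_eq_zero.mp h6 with h7 | h7
        · exact absurd h7 (pow_ne_zero _ hr0)
        · exact h7
    · exact absurd h5 (pow_ne_zero _ hr0)
  have h4 : p.IsRoot ((starRingEnd ℂ) r)⁻¹ := by
    rw [Polynomial.IsRoot.def]
    exact (map_eq_zero _).mp h3
  have h5 := mv5_roots_ge h0 hM h4
  rw [norm_inv, Complex.norm_conj] at h5
  apply le_antisymm _ h1
  have hpos : 0 < ‖r‖ := norm_pos_iff.mpr hr0
  by_contra hn
  have h6 : 1 < ‖r‖ := not_le.mp hn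
  have h7 : ‖r‖⁻¹ < 1 := inv_lt_one_of_one_lt₀ h6
  linarith

end Pool.Agent.MP_44c6d5_nt
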