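import Mathlib
import Pool.Agent.MP_44c6d5_nt.VertBound

namespace Pool.Agent.MP_44c6d5_nt

open MeasureTheory Real MvPolynomial Module Filter Topology

variable {k : ℕ}

/-- the linear map `u ↦ dot u` restricted to a subspace. -/
noncomputable def mv6_map (V : Submodule ℝ (Fin k → ℝ)) : (Fin k → ℝ) →ₗ[ℝ] (V →ₗ[ℝ] ℝ) where
  toFun u := (dot u).domRestrict V
  map_add' a b := by
    ext v
    simp only [LinearMap.domRestrict_apply, LinearMap.add_apply, dot_apply, Pi.add_apply, add_mul]
    rw [Finset.sum_add_distrib]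
  map_smul' c a := by
    ext v
    simp only [LinearMap.domRestrict_apply, LinearMap.smul_apply, dot_apply, Pi.smul_apply,
      smul_eq_mul, RingHom.id_apply, Finset.mul_sum, mul_assoc]

theorem mv6_ker_le (P : Pol k) : LinearMap.ker (mv6_map (vectorSpan ℝ
    ((fun j : Fin k →₀ ℕ => fun i => (j i : ℝ)) '' (P.support : Set (Fin k →₀ ℕ))))) ≤ Lam P := by
  intro u hu j hj j' hj'
  rw [LinearMap.mem_ker] at hu
  have hmem : (fun i => (j i : ℝ)) - (fun i => (j' i : ℝ)) ∈ vectorSpan ℝ
      ((fun j : Fin k →₀ ℕ => fun i => (j i : ℝ)) '' (P.support : Set (Fin k →₀ ℕ))) :=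
    vsub_mem_vectorSpan ℝ ⟨j, hj, rfl⟩ ⟨j', hj', rfl⟩
  have h := LinearMap.congr_fun hu ⟨_, hmem⟩
  have h' : dot u ((fun i => (j i : ℝ)) - (fun i => (j' i : ℝ))) = 0 := h
  rw [map_sub] at h'
  have h1 : dot u (fun i => (j i : ℝ)) = wt u j := by rw [dot_apply]; rfl
  have h2 : dot u (fun i => (j' i : ℝ)) = wt u j' := by rw [dot_apply]; rfl
  rw [h1, h2] at h'
  linarith

/-- **[MV-6]** dimension formula. `≤` is `ndim_add_le` (Recip.lean; same symbols). For `≥`:
with `V = vectorSpan ℝ E`, `E` the set of exponent vectors, `Lam P` is the orthogonal complement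
`{u | ∀ v ∈ V, dot u v = 0}` (if `dot u` kills `V` then it kills the differences `j - j'`, i.e.
`wt u j = wt u j'`); the linear map `u ↦ dot u` from `Fin k → ℝ` to its dual is injective
(`dot_self_pos`), hence bijective, so `finrank (Lam P) = finrank V.dualAnnihilator = k - finrank V`
(`Subspace.finrank_add_finrank_dualAnnihilator_eq` or similar). Alternatively: show that the linear
map `(Fin k → ℝ) →ₗ V →ₗ ℝ`, `u ↦ (dot u).domRestrict V`, has kernel `Lam P` and use rank-nullity:
`k = finrank range + finrank ker ≤ finrank V + finrank (Lam P)`. -/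
theorem ndim_add_eq (P : Pol k) : ndim P + finrank ℝ (Lam P) = k := by
  refine le_antisymm (ndim_add_le P) ?_
  unfold ndim newton
  have h0 : vectorSpan ℝ (convexHull ℝ ((fun j : Fin k →₀ ℕ => fun i => (j i : ℝ)) ''
      (P.support : Set (Fin k →₀ ℕ)))) = vectorSpan ℝ ((fun j : Fin k →₀ ℕ => fun i => (j i : ℝ)) ''
      (P.support : Set (Fin k →₀ ℕ))) := by
    rw [← direction_affineSpan, affineSpan_convexHull, direction_affineSpan]
  rw [h0]
  set V := vectorSpan ℝ ((fun j : Fin k →₀ ℕ => fun i => (j i : ℝ)) ''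
      (P.support : Set (Fin k →₀ ℕ))) with hV
  have h1 := LinearMap.finrank_range_add_finrank_ker (mv6_map V)
  have h2 : finrank ℝ (LinearMap.range (mv6_map V)) ≤ finrank ℝ V := by
    have h3 := Submodule.finrank_le (LinearMap.range (mv6_map V))
    have h4 : finrank ℝ (V →ₗ[ℝ] ℝ) = finrank ℝ V := by
      rw [Module.finrank_linearMap, Module.finrank_self, mul_one]
    omega
  have h3 : finrank ℝ (LinearMap.ker (mv6_map V)) ≤ finrank ℝ (Lam P) :=
    Submodule.finrank_mono (mv6_ker_le P)
  have h4 : finrank ℝ (Fin k → ℝ) = k := by simp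
  omega

end Pool.Agent.MP_44c6d5_nt
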