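import Mathlib
import Pool.Agent.MP_44c6d5_nt.MV.V1
import Pool.Agent.MP_44c6d5_nt.MV.V2
import Pool.Agent.MP_44c6d5_nt.MV.V3
import Pool.Agent.MP_44c6d5_nt.MV.V4
import Pool.Agent.MP_44c6d5_nt.MV.V5
import Pool.Agent.MP_44c6d5_nt.MV.V6

namespace Pool.Agent.MP_44c6d5_nt

open MeasureTheory Real MvPolynomial Module Filter Topology

variable {k : ℕ}

/-- the value of the reciprocal polynomial on the torus -/
theorem ev_rev_eq (P : Pol k) (x : Tor k) :
    ev (rev P) x = mon x (dg P) * (starRingEnd ℂ) (ev P x) := by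
  classical
  rw [ev_eq_sum, support_rev, Finset.sum_image, ev_eq_sum, map_sum, Finset.mul_sum]
  · apply Finset.sum_congr rfl
    intro j hj
    rw [coeff_rev P hj, map_mul]
    have h2 : mon x (dg P) = mon x (dg P - j) * mon x j := by
      rw [← mon_add, tsub_add_cancel_of_le (le_dg hj)]
    have h3 : mon x j * (starRingEnd ℂ) (mon x j) = 1 := by
      rw [Complex.mul_conj, Complex.normSq_eq_norm_sq, norm_mon]; simp
    have h4 : (starRingEnd ℂ) ((coeff j P : ℤ) : ℂ) = ((coeff j P : ℤ) : ℂ) := by simp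
    rw [h4, h2]
    calc ((coeff j P : ℤ) : ℂ) * mon x (dg P - j)
        = ((coeff j P : ℤ) : ℂ) * mon x (dg P - j) * (mon x j * (starRingEnd ℂ) (mon x j)) := by
          rw [h3, mul_one]
      _ = _ := by ring
  · intro i hi j hj h
    simp only at h
    have h1 : dg P - (dg P - i) = dg P - (dg P - j) := by rw [h]
    rwa [tsub_tsub_cancel_of_le (le_dg hi), tsub_tsub_cancel_of_le (le_dg hj)] at h1

/-- restrictions of reciprocal polynomials to lines are self-inversive -/
theorem up_recip (l : Fin k → ℤ) {g : Pol k} (hrev : rev g = g ∨ rev g = -g) (x : Tor k) :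
    ∃ κ : ℂ, κ ≠ 0 ∧ ∃ N : ℤ, ∀ t : UnitAddCircle,
      (up l g x).eval (e t) = κ * e t ^ N * (starRingEnd ℂ) ((up l g x).eval (e t)) := by
  obtain ⟨ε, hε, hrev'⟩ : ∃ ε : ℂ, ε * ε = 1 ∧ ∀ x : Tor k, ev (rev g) x = ε * ev g x := by
    rcases hrev with h | h
    · exact ⟨1, by norm_num, fun x => by rw [h]; ring⟩
    · refine ⟨-1, by norm_num, fun x => ?_⟩
      rw [h]
      simp [ev]
  have hε0 : ε ≠ 0 := by
    rintro rfl
    simp at hε
  have hmon : mon x (dg g) ≠ 0 := by
    intro h
    have := norm_mon x (dg g)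
    rw [h] at this; simp at this
  refine ⟨ε * mon x (dg g), mul_ne_zero hε0 hmon, wtZ l (dg g) - 2 * ordZ l g, fun t => ?_⟩
  have h1 := hrev' (line l x t)
  rw [ev_rev_eq, mon_line, ev_line, map_mul] at h1
  have hne := e_ne_zero t
  have hconj : (starRingEnd ℂ) (e t ^ ordZ l g) = e t ^ (-ordZ l g) := by
    rw [map_zpow₀, zpow_neg, ← inv_zpow]
    congr 1
    rw [Complex.inv_def, Complex.normSq_eq_norm_sq, norm_e]
    simp
  rw [hconj] at h1
  have h2 : e t ^ (wtZ l (dg g) - 2 * ordZ l g) =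
      e t ^ wtZ l (dg g) * e t ^ (-ordZ l g) * e t ^ (-ordZ l g) := by
    rw [← zpow_add₀ hne, ← zpow_add₀ hne]; congr 1; ring
  have h3 : e t ^ ordZ l g * e t ^ (-ordZ l g) = 1 := by
    rw [← zpow_add₀ hne]; simp
  set p := (up l g x).eval (e t) with hp
  calc p = (ε * ε) * (e t ^ ordZ l g * e t ^ (-ordZ l g)) * p := by rw [hε, h3]; ring
    _ = ε * e t ^ (-ordZ l g) * (ε * (e t ^ ordZ l g * p)) := by ring
    _ = ε * e t ^ (-ordZ l g) * (mon x (dg g) * e t ^ wtZ l (dg g) *
          (e t ^ (-ordZ l g) * (starRingEnd ℂ) p)) := by rw [← h1]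
    _ = ε * mon x (dg g) * e t ^ (wtZ l (dg g) - 2 * ordZ l g) * (starRingEnd ℂ) p := by
        rw [h2]; ring

/-- **Key divisibility.** A self-reciprocal irreducible polynomial `g` having the same Mahler measure
as one of its proper faces divides every polynomial which it dominates on the torus. -/
theorem dvd_of_recip {F g : Pol k} (hF : F ≠ 0) (hg : Irreducible g)
    (hrev : rev g = g ∨ rev g = -g) {u : Fin k → ℝ} (hu : u ∉ Lam g)
    (hmm : mm g ≤ mm (ini u g)) {C : ℝ} (hdom : ∀ x : Tor k, ‖ev F x‖ ≤ C * ‖ev g x‖) :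
    g ∣ F := by
  have hg0 := hg.ne_zero
  obtain ⟨l, hl, _⟩ := exists_int_ini u hg0 hg0
  rw [← hl] at hmm
  have hlL : rl l ∉ Lam g := by
    intro h
    apply hu
    rw [← ini_eq_self_iff hg0] at h ⊢
    rw [← hl, h]
  have hdvd : ∀ᵐ x : Tor k, up l g x ∣ up l F x := by
    filter_upwards [ae_mahlerMeasure_up l hg0 hmm, ae_ev_ne_zero (ini_ne_zero (rl l) hg0)]
      with x h1 h2
    rw [← coeff_zero_up l hg0 x] at h1 h2
    obtain ⟨κ, hκ, N, hN⟩ := up_recip l hrev x
    have hr := roots_unit h2 h1 hκ N hN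
    have hp : up l g x ≠ 0 := by
      intro h; rw [h] at h2; simp at h2
    refine dvd_of_dominated hp hr (C := C) fun t => ?_
    rw [← norm_ev_line, ← norm_ev_line]
    exact hdom _
  obtain ⟨K, Q, hQ⟩ := exists_quot l hg0 hF hdvd
  have hprime : Prime g := hg.prime
  have h3 : g ∣ (ini (rl l) g) ^ (K + 1) * F := ⟨Q, hQ.symm⟩
  rcases hprime.dvd_or_dvd h3 with h4 | h4
  · exfalso
    obtain ⟨R, hR⟩ := hprime.dvd_of_dvd_pow h4
    have h5 := mem_Lam_ini (rl l) g
    have hR0 : R ≠ 0 := by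
      rintro rfl
      exact ini_ne_zero (rl l) hg0 (by rw [hR, mul_zero])
    rw [hR, Lam_mul hg0 hR0] at h5
    exact hlL h5.1
  · exact h4

/-- a factor of a polynomial with equality along a face has equality along that face -/
theorem factor_mm {A B : Pol k} (hA : A ≠ 0) (hB : B ≠ 0) (u : Fin k → ℝ)
    (h : mm (A * B) ≤ mm (ini u (A * B))) : mm A ≤ mm (ini u A) := by
  rw [ini_mul u hA hB, mm_mul hA hB, mm_mul (ini_ne_zero u hA) (ini_ne_zero u hB)] at h
  have := mm_ini_le u hB
  linarith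

/-- **The reciprocal factors of a facet through a face of full measure are homogeneous in the
directions of that face.** -/
theorem recip_factor {F : Pol k} (hF : Irreducible F) {w y : Fin k → ℝ} (hy : y ∉ Lam F)
    (hsub : (ini w F).support ⊆ (ini y F).support) (hmm : mm F ≤ mm (ini w F)) {g : Pol k}
    (hg : Irreducible g) (hgF : g ∣ ini y F) (hrev : rev g = g ∨ rev g = -g) :
    Lam (ini w F) ≤ Lam g := by
  have hF0 := hF.ne_zero
  have hg0 := hg.ne_zero
  have hY := ini_ne_zero y hF0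
  obtain ⟨R, hR⟩ := hgF
  have hR0 : R ≠ 0 := by
    rintro rfl
    exact hY (by rw [hR, mul_zero])
  have hmmY : mm F ≤ mm (ini y F) := by
    have h1 := mm_ini_le w hY
    rw [ini_ini_of_subset hF0 hsub] at h1
    linarith
  obtain ⟨C, hC0, hC⟩ := exists_dominate hF0 y hmmY
  have hdom : ∀ x : Tor k, ‖ev F x‖ ≤ (C * len R) * ‖ev g x‖ := by
    intro x
    refine (hC x).trans ?_
    rw [hR, ev_mul, norm_mul]
    have h1 := norm_ev_le R x
    have h2 := norm_nonneg (ev g x)
    calc C * (‖ev g x‖ * ‖ev R x‖) ≤ C * (‖ev g x‖ * len R) := by gcongr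
      _ = (C * len R) * ‖ev g x‖ := by ring
  have key : ∀ u : Fin k → ℝ, ini u F = ini w F → u ∈ Lam g := by
    intro u hu
    by_contra hcon
    have hsubu : (ini u F).support ⊆ (ini y F).support := by rw [hu]; exact hsub
    have h1 : mm (g * R) ≤ mm (ini u (g * R)) := by
      rw [← hR, ini_ini_of_subset hF0 hsubu, hu]
      exact (mm_ini_le y hF0).trans hmm
    have h2 := factor_mm hg0 hR0 u h1
    have h3 : g ∣ F := dvd_of_recip hF0 hg hrev hcon h2 hdom
    have h4 : Associated g F := hg.associated_of_dvd hF h3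
    have h5 : F ∣ ini y F := h4.symm.dvd.trans ⟨R, hR⟩
    obtain ⟨S, hS⟩ := h5
    have hS0 : S ≠ 0 := by
      rintro rfl
      exact hY (by rw [hS, mul_zero])
    have h6 := mem_Lam_ini y F
    rw [hS, Lam_mul hF0 hS0] at h6
    exact hy h6.1
  intro v hv
  have hc : Tendsto (fun s : ℝ => s • v) (𝓝[>] 0) (𝓝 0) := by
    have : Tendsto (fun s : ℝ => s • v) (𝓝 0) (𝓝 ((0 : ℝ) • v)) :=
      (continuous_id.smul continuous_const).tendsto 0
    rw [zero_smul] at this
    exact this.mono_left nhdsWithin_le_nhds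
  obtain ⟨s, ⟨hs1, _⟩, hs0⟩ := ((hc.eventually (perturb w hF0)).and self_mem_nhdsWithin).exists
  have hs0 : 0 < s := hs0
  have hsv : s • v ∈ Lam (ini w F) := (Lam (ini w F)).smul_mem s hv
  rw [(ini_eq_self_iff (ini_ne_zero w hF0)).mpr hsv] at hs1
  have h1 := key _ hs1
  have h2 := key w rfl
  have h3 : s • v ∈ Lam g := by
    have := (Lam g).sub_mem h1 h2
    simpa using this
  have h4 : v = s⁻¹ • (s • v) := by
    rw [smul_smul, inv_mul_cancel₀ hs0.ne', one_smul]
  rw [h4]
  exact (Lam g).smul_mem _ h3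

/-- non-reciprocal irreducible polynomials: measure bounded below, codimension bounded above -/
theorem nonrecip_bounds {g : Pol k} (hg : Irreducible g) (h1 : rev g ≠ g) (h2 : rev g ≠ -g)
    (hL : Lam g ≠ ⊤) {h : ℝ} (hh : 2 * mm g + log 2 ≤ h) :
    exp (-2 * h) ≤ 2 * mm g ∧ (k : ℝ) - finrank ℝ (Lam g) ≤ Phi h := by
  have hg0 := hg.ne_zero
  have hrel : IsRelPrime g (rev g) := (hg.isRelPrime_iff_not_dvd).mpr (not_dvd_rev hg0 h1 h2)
  have hLL : LL g (rev g) = Lam g := inf_eq_left.mpr (Lam_le_rev g)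
  have hH := H_rev hg0
  constructor
  · have := pair_gap hg0 (rev_ne_zero hg0) hrel (by rw [hLL]; exact hL) (h := h)
      (by rw [hH]; exact hh)
    rw [hH] at this
    linarith
  · have := codim_le_Phi hg0 (rev_ne_zero hg0) hrel (h := h) (by rw [hH]; exact hh)
    rw [hLL] at this
    exact this

theorem Lam_one : Lam (1 : Pol k) = ⊤ := by
  rw [eq_top_iff]
  intro u _ j hj j' hj'
  classical
  have h : ∀ j ∈ (1 : Pol k).support, j = 0 := by
    intro j hj
    rw [MvPolynomial.mem_support_iff, coeff_one] at hj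
    by_contra hne
    exact hj (if_neg (Ne.symm hne))
  rw [h j hj, h j' hj']

/-- codimension bound for products of homogeneous reciprocal and of non-reciprocal factors. -/
theorem factor_bound {X : Submodule ℝ (Fin k → ℝ)} {B : ℝ} (P : Pol k) :
    P ≠ 0 → mm P ≤ B →
    (∀ g : Pol k, Irreducible g → g ∣ P → (rev g = g ∨ rev g = -g) → X ≤ Lam g) →
    (finrank ℝ X : ℝ) - finrank ℝ ↥(Lam P ⊓ X) ≤
      (2 * exp (2 * (2 * B + log 2)) * Phi (2 * B + log 2)) * mm P := by
  classical
  induction P using WfDvdMonoid.induction_on_irreducible with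
  | zero => intro h; exact absurd rfl h
  | unit u hu =>
    intro hu0 hB _
    obtain ⟨v, hv⟩ := hu.exists_right_inv
    have hv0 : v ≠ 0 := by
      rintro rfl
      rw [mul_zero] at hv
      exact zero_ne_one hv
    have h1 : Lam u = ⊤ := by
      have := Lam_mul hu0 hv0
      rw [hv, Lam_one] at this
      exact (inf_eq_top_iff.mp this.symm).1
    rw [h1, top_inf_eq, sub_self]
    have h0 := mm_nonneg hu0
    have hl2 : 0 ≤ log 2 := Real.log_nonneg (by norm_num)
    have := Phi_nonneg (h := 2 * B + log 2) (by linarith)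
    positivity
  | mul P g hP0 hg ih =>
    intro _ hB hrec
    have hg0 := hg.ne_zero
    have hmmP := mm_nonneg hP0
    have hmmg := mm_nonneg hg0
    rw [mm_mul hg0 hP0] at hB ⊢
    have hl2 : 0 ≤ log 2 := Real.log_nonneg (by norm_num)
    have hPhi := Phi_nonneg (h := 2 * B + log 2) (by linarith)
    have hIH := ih hP0 (by linarith) (fun g' hg' hd hr => hrec g' hg' (hd.mul_left g) hr)
    set c : ℝ := 2 * exp (2 * (2 * B + log 2)) * Phi (2 * B + log 2) with hc
    have hc0 : 0 ≤ c := by positivity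
    rw [Lam_mul hg0 hP0, inf_assoc]
    by_cases hcase : Lam P ⊓ X ≤ Lam g
    · rw [inf_eq_right.mpr hcase]
      have : 0 ≤ c * mm g := by positivity
      linarith
    · have hnr : ¬ (rev g = g ∨ rev g = -g) := by
        intro h
        exact hcase (inf_le_right.trans (hrec g hg (dvd_mul_right g P) h))
      push Not at hnr
      have htop : Lam g ≠ ⊤ := by
        intro h
        apply hcase
        rw [h]; exact le_top
      obtain ⟨h1, h2⟩ := nonrecip_bounds hg hnr.1 hnr.2 htop (h := 2 * B + log 2) (by linarith)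
      have h3 := finrank_inf_ge (Lam g) (Lam P ⊓ X)
      have h4 : (finrank ℝ (Lam g) : ℝ) + finrank ℝ ↥(Lam P ⊓ X) ≤
          finrank ℝ ↥(Lam g ⊓ (Lam P ⊓ X)) + k := by exact_mod_cast h3
      have h5 : Phi (2 * B + log 2) ≤ c * mm g := by
        have h6 : exp (2 * (2 * B + log 2)) * exp (-2 * (2 * B + log 2)) = 1 := by
          rw [← Real.exp_add]; simp
        calc Phi (2 * B + log 2)
            = (exp (2 * (2 * B + log 2)) * Phi (2 * B + log 2)) *
                exp (-2 * (2 * B + log 2)) := by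
              rw [mul_right_comm, h6, one_mul]
          _ ≤ (exp (2 * (2 * B + log 2)) * Phi (2 * B + log 2)) * (2 * mm g) := by
              apply mul_le_mul_of_nonneg_left h1
              positivity
          _ = c * mm g := by rw [hc]; ring
      linarith

/-- **Main bound.** -/
theorem face_bound {F : Pol k} (hF : Irreducible F) (w : Fin k → ℝ) (hmm : mm F ≤ mm (ini w F))
    {B : ℝ} (hB : mm F ≤ B) :
    (ndim F : ℝ) ≤ ndim (ini w F) + 1 +
      (2 * exp (2 * (2 * B + log 2)) * Phi (2 * B + log 2)) * B := by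
  have hF0 := hF.ne_zero
  have h0 := mm_nonneg hF0
  have hl2 : 0 ≤ log 2 := Real.log_nonneg (by norm_num)
  have hPhi := Phi_nonneg (h := 2 * B + log 2) (by linarith)
  have hB0 : 0 ≤ B := h0.trans hB
  set c : ℝ := 2 * exp (2 * (2 * B + log 2)) * Phi (2 * B + log 2) with hc
  have hc0 : 0 ≤ c := by positivity
  by_cases hw : w ∈ Lam F
  · rw [(ini_eq_self_iff hF0).mpr hw]
    have : 0 ≤ c * B := by positivity
    linarith
  obtain ⟨y, hy, hsub, hfac⟩ := exists_facet_face hF0 hw
  have hY := ini_ne_zero y hF0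
  have h1 := mm_ini_le y hF0
  have h2 := factor_bound (X := Lam (ini w F)) (B := B) (ini y F) hY (h1.trans hB)
    (fun g hg hd hr => recip_factor hF hy hsub hmm hg hd hr)
  rw [inf_eq_left.mpr (Lam_mono hsub), hfac] at h2
  have h3 := ndim_add_eq F
  have h4 := ndim_add_eq (ini w F)
  have h3' : (ndim F : ℝ) + finrank ℝ (Lam F) = k := by exact_mod_cast h3
  have h4' : (ndim (ini w F) : ℝ) + finrank ℝ (Lam (ini w F)) = k := by exact_mod_cast h4
  have h5 : c * mm (ini y F) ≤ c * B := mul_le_mul_of_nonneg_left (h1.trans hB) hc0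
  push_cast at h2
  linarith

end Pool.Agent.MP_44c6d5_nt
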